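import Pool.Agent.R547.TopK.Main

set_option autoImplicit false

/-!
# Large matchings in integral domination graphs under top-`k` ballots: the conjecture is false

For every `ε > 0` there is a profile with `n` voters and `m` candidates and a `k ≤ m` such that
every set `S` of voters with a perfect matching in some `G_k(a)` has fewer than
`(1/2 + ε) * n * k / m` elements. The smallest member of the family which refutes the conjecture
has `n = 12`, `m = 9` and `k = 7`.
-/

namespace Pool.Agent.Results.MP_5491e1_lc.TopKMatching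

open Pool.Agent.R547.TopK

/-- The statement of the conjecture: for all `n, m ≥ 1`, all `1 ≤ k ≤ m` and all profiles with `n`
voters and `m` candidates there are a candidate `a` and a set `S` of at least `n * k / m` voters
such that `G_k(a)` has a perfect matching on `S`. -/
def Conjecture : Prop :=
  ∀ (V C : Type) [Fintype V] [Fintype C] (n m k : ℕ), 1 ≤ n → 1 ≤ k → k ≤ m →
    Fintype.card V = n → Fintype.card C = m → ∀ P : Profile V C m,
      ∃ (a : C) (S : Finset V), (n * k : ℝ) / m ≤ S.card ∧ HasPerfectMatching P k a S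

/-- The conjecture is false, even with `(1/2 + ε) * n * k / m` instead of `n * k / m`. -/
theorem result :
    ¬ Conjecture ∧
    ∀ ε : ℝ, 0 < ε → ∃ (V C : Type) (_ : Fintype V) (_ : Fintype C) (n m k : ℕ),
      1 ≤ n ∧ 1 ≤ k ∧ k ≤ m ∧ Fintype.card V = n ∧ Fintype.card C = m ∧
      ∃ P : Profile V C m, ∀ (a : C) (S : Finset V), HasPerfectMatching P k a S →
        (S.card : ℝ) < (1 / 2 + ε) * ((n * k : ℝ) / m) := by
  have main : ∀ ε : ℝ, 0 < ε → ∃ (V C : Type) (_ : Fintype V) (_ : Fintype C) (n m k : ℕ),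
      1 ≤ n ∧ 1 ≤ k ∧ k ≤ m ∧ Fintype.card V = n ∧ Fintype.card C = m ∧
      ∃ P : Profile V C m, ∀ (a : C) (S : Finset V), HasPerfectMatching P k a S →
        (S.card : ℝ) < (1 / 2 + ε) * ((n * k : ℝ) / m) := by
    intro ε hε
    obtain ⟨t, ht⟩ := exists_nat_gt (1 / ε)
    obtain ⟨N, hN⟩ := exists_nat_gt (((1 + ε) * (t + 2)) / ε)
    have ht' : 1 < ε * t := by
      rw [div_lt_iff₀ hε] at ht
      linarith [mul_comm (t : ℝ) ε]
    have hN' : (1 + ε) * (t + 2) < ε * N := by
      rw [div_lt_iff₀ hε] at hN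
      linarith [mul_comm (N : ℝ) ε]
    refine ⟨Vot t, Cand t N, inferInstance, inferInstance, 2 * (t + 1) * (t + 2), t + 2 + N,
      N + 1, by nlinarith, by omega, by omega, card_vot t, by simp, prof t N, ?_⟩
    intro a S hS
    have h1 : (S.card : ℝ) ≤ (t + 2) ^ 2 := by exact_mod_cast bound t N a S hS
    refine lt_of_le_of_lt h1 ?_
    push_cast
    rw [← mul_div_assoc, lt_div_iff₀ (by positivity)]
    have h2 : ((t : ℝ) + 2) < (1 + ε) * (t + 1) := by nlinarith
    have h3 : (1 + ε) * ((t : ℝ) + 2 + N) < (1 + 2 * ε) * (N + 1) := by nlinarith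
    have h4 : ((t : ℝ) + 2) * (t + 2 + N) < (1 + ε) * (t + 1) * (t + 2 + N) :=
      mul_lt_mul_of_pos_right h2 (by positivity)
    have h5 : (1 + ε) * (t + 1) * ((t : ℝ) + 2 + N) < (t + 1) * ((1 + 2 * ε) * (N + 1)) := by
      have := mul_lt_mul_of_pos_left h3 (show (0 : ℝ) < t + 1 by positivity)
      linarith
    have h6 := mul_lt_mul_of_pos_left (h4.trans h5) (show (0 : ℝ) < t + 2 by positivity)
    linarith
  refine ⟨?_, main⟩
  intro hc
  obtain ⟨V, C, _, _, n, m, k, h1, h2, h3, h4, h5, P, hP⟩ := main (1 / 4) (by norm_num)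
  obtain ⟨a, S, h6, h7⟩ := hc V C n m k h1 h2 h3 h4 h5 P
  have h8 := hP a S h7
  have h9 : (0 : ℝ) ≤ (n * k : ℝ) / m := by positivity
  linarith

end Pool.Agent.Results.MP_5491e1_lc.TopKMatching
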